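import Pool.Agent.Mg.F9808b6.G85be52

/-! Polynomial growth of the Boolean Bohnenblust-Hille constants. -/

open Finset Filter Topology

namespace Pool.Agent.MP_9808b6_an

/-- uniform bound for a level -/
def Bd (k : ℕ) (C e : ℝ) : Prop := ∀ (ι : Type) [Fintype ι] [DecidableEq ι] (a : Finset ι → ℝ)
  (m : ℕ) (M : ℝ), 1 ≤ m → Adm a m M → N2 a k ≤ C * (m : ℝ) ^ e * M ^ 2

/-- uniform bound for a mixed norm -/
def XBd (j l : ℕ) (C e : ℝ) : Prop := ∀ (ι : Type) [Fintype ι] [DecidableEq ι] (a : Finset ι → ℝ)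
  (m : ℕ) (M : ℝ), 1 ≤ m → Adm a m M → ∀ A, XX a A j l ≤ C * (m : ℝ) ^ e * M ^ 2

theorem Bd.mono {k : ℕ} {C e e' : ℝ} (h : Bd k C e) (hC : 0 ≤ C) (he : e ≤ e') : Bd k C e' := by
  intro ι _ _ a m M hm ha
  refine (h ι a m M hm ha).trans ?_
  have : (1 : ℝ) ≤ m := by exact_mod_cast hm
  gcongr

theorem bd_one : Bd 1 1 2 := by
  intro ι _ _ a m M hm ha
  refine (N2_one hm ha).trans (le_of_eq ?_)
  rw [Real.rpow_two]; ring

theorem xbd_one (l : ℕ) : XBd 1 l (8 * 2 ^ l) (l + 2) := by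
  intro ι _ _ a m M hm ha A
  refine (X_one hm ha A l).trans (le_of_eq ?_)
  have : (0 : ℝ) < m := by exact_mod_cast hm
  rw [Real.rpow_add this, Real.rpow_natCast, Real.rpow_two]; ring

theorem Bd.xbd {j : ℕ} {C e : ℝ} (hj : 2 ≤ j) (h : Bd j C e) (l : ℕ) : XBd j l (3 ^ l * C) e := by
  intro ι _ _ a m M hm ha A
  have h1 := hyper_X a A hj {l}
  rw [sum_singleton] at h1
  have h2 := h1.trans (av_le fun x => h ι _ m M hm (ha.res A x))
  have h3 : 1 ≤ 3 * (2 * rr j - 1) := by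
    have : (2 : ℝ) ≤ j := by exact_mod_cast hj
    rw [two_rr, ← mul_div_assoc, le_div_iff₀ (by positivity)]; linarith
  have h4 := XX_nonneg a A j l
  calc XX a A j l ≤ (3 * (2 * rr j - 1)) ^ l * XX a A j l :=
        le_mul_of_one_le_left h4 (one_le_pow₀ h3)
    _ = 3 ^ l * ((2 * rr j - 1) ^ l * XX a A j l) := by rw [mul_pow]; ring
    _ ≤ 3 ^ l * (C * (m : ℝ) ^ e * M ^ 2) := by gcongr
    _ = _ := by ring

theorem bd_add {j l : ℕ} (hj : 1 ≤ j) (hl : 1 ≤ l) {C₁ C₂ e₁ e₂ : ℝ} (hC₁ : 0 ≤ C₁) (hC₂ : 0 ≤ C₂)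
    (h₁ : XBd j l C₁ e₁) (h₂ : XBd l j C₂ e₂) :
    ∃ C, 0 ≤ C ∧ Bd (j + l) C ((j * e₁ + l * e₂) / (j + l)) := by
  have hj' : (0 : ℝ) < j := by exact_mod_cast hj
  have hl' : (0 : ℝ) < l := by exact_mod_cast hl
  set θ : ℝ := j / (j + l) with hθ
  refine ⟨4 ^ (j + l) * (C₁ ^ θ * C₂ ^ (1 - θ)), by positivity, ?_⟩
  intro ι _ _ a m M hm ha
  refine (N2_le_single a hj hl (h₁ ι a m M hm ha) (h₂ ι a m M hm ha)).trans (le_of_eq ?_)
  have hm' : (0 : ℝ) < m := by exact_mod_cast hm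
  rw [← hθ, Real.mul_rpow (by positivity) (sq_nonneg _), Real.mul_rpow (by positivity) (sq_nonneg _),
    Real.mul_rpow hC₁ (by positivity), Real.mul_rpow hC₂ (by positivity),
    ← Real.rpow_mul hm'.le, ← Real.rpow_mul hm'.le]
  have e1 : (M ^ 2) ^ θ * (M ^ 2) ^ (1 - θ) = M ^ 2 := by
    rw [← Real.rpow_add' (sq_nonneg M) (by norm_num)]; simp
  have e2 : (m : ℝ) ^ (e₁ * θ) * (m : ℝ) ^ (e₂ * (1 - θ)) =
      (m : ℝ) ^ ((j * e₁ + l * e₂) / (j + l)) := by
    rw [← Real.rpow_add hm']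
    congr 1
    rw [hθ]; field_simp; ring
  rw [← e2]
  conv_rhs => rw [← e1]
  ring

theorem bd_two : ∃ C, 0 ≤ C ∧ Bd 2 C 3 := by
  obtain ⟨C, h0, h⟩ := bd_add le_rfl le_rfl (by positivity) (by positivity) (xbd_one 1) (xbd_one 1)
  refine ⟨C, h0, ?_⟩
  convert h using 1
  norm_num

theorem bd_all (k : ℕ) : ∃ C, 0 ≤ C ∧ (1 ≤ k → Bd k C (3 + 1 / k)) := by
  obtain ⟨C2, h20, h2⟩ := bd_two
  induction k using Nat.strong_induction_on with
  | _ k ih =>
    match k, ih with
    | 0, _ => exact ⟨0, le_rfl, fun h => absurd h (by norm_num)⟩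
    | 1, _ => exact ⟨1, zero_le_one, fun _ => bd_one.mono zero_le_one (by norm_num)⟩
    | 2, _ => exact ⟨C2, h20, fun _ => h2.mono h20 (by norm_num)⟩
    | 3, _ =>
      obtain ⟨C, h0, h⟩ := bd_add (j := 2) (l := 1) (by norm_num) le_rfl (by positivity)
        (by positivity) (h2.xbd le_rfl 1) (xbd_one 2)
      refine ⟨C, h0, fun _ => ?_⟩
      convert h using 1
      norm_num
    | k + 4, ih =>
      obtain ⟨Ck, hk0, hk⟩ := ih (k + 2) (by omega)
      obtain ⟨C, h0, h⟩ := bd_add (j := k + 2) (l := 2) (by omega) (by norm_num) (by positivity)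
        (by positivity) ((hk (by omega)).xbd (by omega) 2) (h2.xbd le_rfl (k + 2))
      refine ⟨C, h0, fun _ => ?_⟩
      convert h using 1
      push_cast
      field_simp
      ring

theorem exists_beta {B : ℝ} (hB : 2 / Real.log 2 < B) : ∃ β : ℝ, 1 / 2 < β ∧ β < 1 ∧
    2 * β * β ^ B * Real.exp (2 * β / (1 - β)) < 1 := by
  have hc : ContinuousAt (fun β : ℝ => 2 * β * β ^ B * Real.exp (2 * β / (1 - β))) (1 / 2) := by
    apply ContinuousAt.mul (ContinuousAt.mul (by fun_prop) _)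
    · apply Real.continuous_exp.continuousAt.comp
      exact ContinuousAt.div (by fun_prop) (by fun_prop) (by norm_num)
    · exact Real.continuousAt_rpow_const _ _ (Or.inl (by norm_num))
  have h0 : 2 * (1 / 2 : ℝ) * (1 / 2 : ℝ) ^ B * Real.exp (2 * (1 / 2) / (1 - 1 / 2)) < 1 := by
    have hl : 0 < Real.log 2 := Real.log_pos (by norm_num)
    rw [div_lt_iff₀ hl] at hB
    rw [Real.rpow_def_of_pos (by norm_num), mul_assoc, ← Real.exp_add, one_div, Real.log_inv]
    norm_num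
    linarith
  have h1 := (hc.eventually (gt_mem_nhds h0)).and (gt_mem_nhds (show (1 / 2 : ℝ) < 1 by norm_num))
  obtain ⟨β, h2, h3, h4⟩ := h1.exists_gt
  exact ⟨β, h2, h4, h3⟩

theorem params {B : ℝ} (hB : 2 / Real.log 2 < B) (k₁ : ℕ) (hk₁ : 2 ≤ k₁) :
    ∃ (β κ : ℝ) (k₀ : ℕ) (J : ℕ → Finset ℕ) (π : ℕ → ℝ), 0 ≤ β ∧ 0 ≤ κ ∧ κ < 1 ∧ ∀ k, k₀ ≤ k →
      1 ≤ k ∧ 0 < π k ∧
      (∀ (ι : Type) [Fintype ι] [DecidableEq ι] (S : Finset ι), S.card = k →
        π k ≤ av (fun A => if (S ∩ A).card ∈ J k then 1 else 0)) ∧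
      ∀ j ∈ J k, (1 ≤ j ∧ j < k ∧ k - j ∈ J k ∧ (j : ℝ) ≤ β * k) ∧ k₁ ≤ j ∧
        (k : ℝ) ^ (-B) * ((π k)⁻¹ ^ (1 / rr k) * ((J k).card : ℝ) ^ (1 / rr k - 1) * (2 * β)) ≤
          κ * ((j : ℝ) ^ (-B) * (2 * rr j - 1) ^ (k - j)) := by
  classical
  obtain ⟨β, hβ1, hβ2, hβ⟩ := exists_beta hB
  have hB0 : 0 < B := lt_trans (div_pos two_pos (Real.log_pos (by norm_num))) hB
  set h := 2 * β * β ^ B * Real.exp (2 * β / (1 - β)) with hh
  have hβ0 : 0 < β := by linarith
  have hδ : 0 < 2 * β - 1 := by linarith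
  have h0 : 0 ≤ h := by positivity
  let π : ℕ → ℝ := fun k => 1 - (1 / (2 * β - 1) ^ 2) * (k : ℝ)⁻¹
  let E : ℕ → ℝ := fun k => Real.exp (2 * β / (1 - β - (k : ℝ)⁻¹))
  have t0 : Tendsto (fun k : ℕ => (k : ℝ)⁻¹) atTop (𝓝 0) := tendsto_inv_atTop_nhds_zero_nat
  have t1 : Tendsto π atTop (𝓝 1) := by
    simpa using (t0.const_mul (1 / (2 * β - 1) ^ 2)).const_sub 1
  have t2 : Tendsto (fun k : ℕ => (π k)⁻¹ ^ (1 + (k : ℝ)⁻¹)) atTop (𝓝 1) := by
    simpa using (t1.inv₀ one_ne_zero).rpow (t0.const_add 1) (Or.inl (by simp))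
  have t3 : Tendsto (fun k : ℕ => ((k : ℝ) + 1) ^ (k : ℝ)⁻¹) atTop (𝓝 1) := by
    have := (tendsto_rpow_div_mul_add 1 1 (-1) zero_ne_one).comp
      (tendsto_atTop_add_const_right atTop (1 : ℝ) tendsto_natCast_atTop_atTop)
    refine this.congr fun k => ?_
    simp
  have t4 : Tendsto E atTop (𝓝 (Real.exp (2 * β / (1 - β)))) := by
    apply (Real.continuous_exp.tendsto _).comp
    have := (tendsto_const_nhds (x := 2 * β)).div (t0.const_sub (1 - β)) (by simp; linarith)
    rw [sub_zero] at this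
    exact this
  have t5 : Tendsto (fun k : ℕ => (π k)⁻¹ ^ (1 + (k : ℝ)⁻¹) * ((k : ℝ) + 1) ^ (k : ℝ)⁻¹ *
      (2 * β) * β ^ B * E k) atTop (𝓝 h) := by
    have := (((t2.mul t3).mul_const (2 * β)).mul_const (β ^ B)).mul t4
    simpa [hh] using this
  have t6 : Tendsto (fun k : ℕ => (1 - β) * (k : ℝ)) atTop atTop :=
    tendsto_natCast_atTop_atTop.const_mul_atTop (by linarith)
  have ev := ((t5.eventually (gt_mem_nhds (show h < (1 + h) / 2 by linarith))).and
    (t1.eventually (lt_mem_nhds zero_lt_one))).and ((t6.eventually_ge_atTop k₁).and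
    (eventually_ge_atTop 1))
  obtain ⟨k₀, hk₀⟩ := eventually_atTop.1 ev
  refine ⟨β, (1 + h) / 2, k₀,
    fun k => (range (k + 1)).filter (fun j => |2 * (j : ℝ) - k| ≤ (2 * β - 1) * k), π,
    hβ0.le, by linarith, by linarith, fun k hk => ?_⟩
  obtain ⟨⟨c1, c2⟩, c3, c4⟩ := hk₀ k hk
  have hk' : (0 : ℝ) < k := by exact_mod_cast c4
  have hk1' : (2 : ℝ) ≤ k₁ := by exact_mod_cast hk₁
  refine ⟨c4, c2, ?_, ?_⟩
  · intro ι _ _ S hS
    have := prob_central S ((range (k + 1)).filter (fun j => |2 * (j : ℝ) - k| ≤ (2 * β - 1) * k))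
      ((2 * β - 1) * k) (by positivity) (by
        intro j hj hj'
        rw [hS] at hj hj'
        exact mem_filter.2 ⟨mem_range.2 (by omega), hj'⟩)
    refine le_trans (le_of_eq ?_) this
    simp only [π, hS]
    field_simp
  · intro j hj
    obtain ⟨j1, j2⟩ := mem_filter.1 hj
    have j3 : j ≤ k := by have := mem_range.1 j1; omega
    obtain ⟨j4, j5⟩ := abs_le.1 j2
    have j6 : (j : ℝ) ≤ β * k := by linarith
    have j7 : (1 - β) * k ≤ j := by linarith
    have j8 : k₁ ≤ j := by exact_mod_cast c3.trans j7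
    have j9 : j < k := by
      have : (j : ℝ) < k := by nlinarith
      exact_mod_cast this
    have jc : ((k - j : ℕ) : ℝ) = k - j := Nat.cast_sub j3
    have j0 : (2 : ℝ) ≤ j := by linarith
    refine ⟨⟨by omega, j9, mem_filter.2 ⟨mem_range.2 (by omega), ?_⟩, j6⟩, j8, ?_⟩
    · rw [jc, abs_le]
      constructor <;> linarith
    · have a1 : (k : ℝ) ^ (-B) ≤ β ^ B * (j : ℝ) ^ (-B) := by
        have : (β * k) ^ (-B) ≤ (j : ℝ) ^ (-B) :=
          Real.rpow_le_rpow_of_nonpos (by linarith) j6 (by linarith)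
        rw [Real.mul_rpow hβ0.le hk'.le, Real.rpow_neg hβ0.le] at this
        rwa [inv_mul_le_iff₀ (Real.rpow_pos_of_pos hβ0 _)] at this
      have a2 : ((((range (k + 1)).filter
          (fun j : ℕ => |2 * (j : ℝ) - k| ≤ (2 * β - 1) * k)).card : ℕ) : ℝ) ^ (1 / rr k - 1) ≤
          ((k : ℝ) + 1) ^ (k : ℝ)⁻¹ := by
        rw [inv_rr c4, add_sub_cancel_left, one_div]
        apply Real.rpow_le_rpow (by positivity) _ (by positivity)
        exact_mod_cast (card_filter_le _ _).trans (card_range _).le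
      have a3 : 1 ≤ E k * (2 * rr j - 1) ^ (k - j) := by
        have b1 : 1 ≤ Real.exp (2 / (j - 1)) * (2 * rr j - 1) := by
          have b0 : (0 : ℝ) < j - 1 := by linarith
          have := Real.add_one_le_exp (2 / ((j : ℝ) - 1))
          rw [two_rr]
          calc (1 : ℝ) = (2 / (j - 1) + 1) * ((j - 1) / (j + 1)) := by field_simp; ring
            _ ≤ _ := by gcongr
        have b2 := one_le_pow₀ (n := k - j) b1
        rw [mul_pow, ← Real.exp_nat_mul] at b2
        refine b2.trans ?_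
        have b3 : 0 ≤ 2 * rr j - 1 := by linarith [half_lt_rr (k := j) (by omega)]
        have b4 : 0 < 1 - β - (k : ℝ)⁻¹ := by
          rw [sub_pos, inv_lt_iff_one_lt_mul₀ hk']; linarith
        gcongr
        apply Real.exp_le_exp.2
        rw [jc, ← mul_div_assoc, div_le_div_iff₀ (by linarith) b4]
        have b5 : (k : ℝ) * (1 - β - (k : ℝ)⁻¹) ≤ j - 1 := by
          rw [mul_sub, mul_inv_cancel₀ hk'.ne']; linarith
        have b6 : (k : ℝ) - j ≤ β * k := by linarith
        calc ((k : ℝ) - j) * 2 * (1 - β - (k : ℝ)⁻¹) ≤ β * k * 2 * (1 - β - (k : ℝ)⁻¹) := by gcongr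
          _ = 2 * β * (k * (1 - β - (k : ℝ)⁻¹)) := by ring
          _ ≤ _ := by gcongr
      have a4 : 1 / rr k = 1 + (k : ℝ)⁻¹ := by rw [inv_rr c4, one_div]
      have b3 : 0 ≤ 2 * rr j - 1 := by linarith [half_lt_rr (k := j) (by omega)]
      calc _ ≤ (β ^ B * (j : ℝ) ^ (-B)) * ((π k)⁻¹ ^ (1 / rr k) * ((k : ℝ) + 1) ^ (k : ℝ)⁻¹ *
            (2 * β)) := by gcongr
        _ ≤ (β ^ B * (j : ℝ) ^ (-B)) * ((π k)⁻¹ ^ (1 / rr k) * ((k : ℝ) + 1) ^ (k : ℝ)⁻¹ *
            (2 * β)) * (E k * (2 * rr j - 1) ^ (k - j)) :=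
            le_mul_of_one_le_right (by positivity) a3
        _ = ((π k)⁻¹ ^ (1 + (k : ℝ)⁻¹) * ((k : ℝ) + 1) ^ (k : ℝ)⁻¹ * (2 * β) * β ^ B * E k) *
            ((j : ℝ) ^ (-B) * (2 * rr j - 1) ^ (k - j)) := by rw [a4]; ring
        _ ≤ _ := by gcongr

theorem graded {B : ℝ} (hB : 2 / Real.log 2 < B) (k₁ : ℕ) (hk₁ : 2 ≤ k₁) :
    ∃ C : ℝ, 0 ≤ C ∧ ∀ (K : ℕ) (ι : Type) [Fintype ι] [DecidableEq ι] (a : Finset ι → ℝ)
      (m : ℕ) (M : ℝ), 1 ≤ m → Adm a m M →
      ∑ k ∈ Icc k₁ K, (k : ℝ) ^ (-B) * N2 a k ≤ C * (m : ℝ) ^ (3 + 1 / (k₁ : ℝ)) * M ^ 2 := by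
  obtain ⟨β, κ, k₀, J, π, hβ, hκ0, hκ1, H⟩ := params hB k₁ hk₁
  have hB0 : 0 < B := lt_trans (div_pos two_pos (Real.log_pos (by norm_num))) hB
  choose Ck hCk0 hCk using bd_all
  have hC0 : 0 ≤ ∑ k ∈ range k₀, Ck k := Finset.sum_nonneg fun k _ => hCk0 k
  have h1κ : 0 < 1 - κ := by linarith
  refine ⟨(∑ k ∈ range k₀, Ck k) / (1 - κ), by positivity, fun K => ?_⟩
  induction K with
  | zero =>
    intro ι _ _ a m M hm ha
    rw [Icc_eq_empty (by omega), sum_empty]
    positivity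
  | succ K ih =>
    intro ι _ _ a m M hm ha
    set C := (∑ k ∈ range k₀, Ck k) / (1 - κ) with hC
    set D := (m : ℝ) ^ (3 + 1 / (k₁ : ℝ)) * M ^ 2 with hD
    have hD0 : 0 ≤ D := by positivity
    rw [← Finset.sum_filter_add_sum_filter_not (Icc k₁ (K + 1)) (fun k => k < k₀)]
    have P1 : ∑ k ∈ (Icc k₁ (K + 1)).filter (fun k => k < k₀), (k : ℝ) ^ (-B) * N2 a k ≤
        (∑ k ∈ range k₀, Ck k) * D := by
      rw [Finset.sum_mul]
      refine le_trans (Finset.sum_le_sum (g := fun k => Ck k * D) ?_)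
        (Finset.sum_le_sum_of_subset_of_nonneg ?_ fun k _ _ => mul_nonneg (hCk0 k) hD0)
      · intro k hk
        have k1 : k₁ ≤ k := (mem_Icc.1 (mem_filter.1 hk).1).1
        have k2 : (k₁ : ℝ) ≤ k := by exact_mod_cast k1
        have k3 : (2 : ℝ) ≤ k₁ := by exact_mod_cast hk₁
        have h1 := ((hCk k (by omega)).mono (hCk0 k) (e' := 3 + 1 / (k₁ : ℝ)) (by gcongr))
          ι a m M hm ha
        rw [hD, ← mul_assoc]
        refine le_trans (mul_le_of_le_one_left (N2_nonneg a k) ?_) h1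
        exact Real.rpow_le_one_of_one_le_of_nonpos (by linarith) (by linarith)
      · intro k hk
        exact mem_range.2 (mem_filter.1 hk).2
    have P2 : ∑ k ∈ (Icc k₁ (K + 1)).filter (fun k => ¬ k < k₀), (k : ℝ) ^ (-B) * N2 a k ≤
        κ * (C * D) := by
      set T := (Icc k₁ (K + 1)).filter (fun k => ¬ k < k₀) with hT
      have hTk : ∀ k ∈ T, k₀ ≤ k ∧ k ≤ K + 1 := fun k hk =>
        ⟨not_lt.1 (mem_filter.1 hk).2, (mem_Icc.1 (mem_filter.1 hk).1).2⟩
      calc ∑ k ∈ T, (k : ℝ) ^ (-B) * N2 a k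
          ≤ ∑ k ∈ T, av (fun A => ∑ j ∈ J k,
              κ * ((j : ℝ) ^ (-B) * ((2 * rr j - 1) ^ (k - j) * XX a A j (k - j)))) := by
            apply Finset.sum_le_sum
            intro k hk
            obtain ⟨c1, c2, c3, c4⟩ := H k (hTk k hk).1
            have h1 := N2_le_central a c1 (J k) (π k) β c2 hβ (c3 ι) (fun j hj => (c4 j hj).1)
            refine (mul_le_mul_of_nonneg_left h1 (by positivity)).trans ?_
            rw [← mul_assoc, ← av_mul]
            apply av_mono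
            intro A
            rw [Finset.mul_sum]
            apply Finset.sum_le_sum
            intro j hj
            refine (mul_le_mul_of_nonneg_right (c4 j hj).2.2 (XX_nonneg _ _ _ _)).trans
              (le_of_eq ?_)
            ring
        _ ≤ κ * (C * D) := by
            rw [← av_sum]
            apply av_le
            intro A
            have e : ∑ k ∈ T, ∑ j ∈ J k,
                κ * ((j : ℝ) ^ (-B) * ((2 * rr j - 1) ^ (k - j) * XX a A j (k - j))) =
                κ * ∑ j ∈ Icc k₁ K, (j : ℝ) ^ (-B) * ∑ k ∈ T.filter (fun k => j ∈ J k),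
                  (2 * rr j - 1) ^ (k - j) * XX a A j (k - j) := by
              simp only [Finset.mul_sum]
              apply Finset.sum_comm'
              intro k j
              simp only [mem_filter, mem_Icc]
              constructor
              · rintro ⟨h1, h2⟩
                obtain ⟨-, -, -, c4⟩ := H k (hTk k h1).1
                have := (c4 j h2).1.2.1
                have := (c4 j h2).2.1
                have := (hTk k h1).2
                exact ⟨⟨h1, h2⟩, by omega, by omega⟩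
              · rintro ⟨h1, -⟩
                exact h1
            rw [e]
            apply mul_le_mul_of_nonneg_left _ hκ0
            calc _ ≤ ∑ j ∈ Icc k₁ K, (j : ℝ) ^ (-B) * av (fun x => N2 (res a A x) j) := by
                  apply Finset.sum_le_sum
                  intro j hj
                  apply mul_le_mul_of_nonneg_left _ (by positivity)
                  refine le_trans (le_of_eq ?_) (hyper_X a A (hk₁.trans (mem_Icc.1 hj).1)
                    ((T.filter (fun k => j ∈ J k)).image (fun k => k - j)))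
                  rw [Finset.sum_image]
                  intro k hk k' hk' he
                  obtain ⟨h1, h2⟩ := mem_filter.1 hk
                  obtain ⟨h1', h2'⟩ := mem_filter.1 hk'
                  have := ((H k (hTk k h1).1).2.2.2 j h2).1.2.1
                  have := ((H k' (hTk k' h1').1).2.2.2 j h2').1.2.1
                  simp only at he
                  omega
              _ = av (fun x => ∑ j ∈ Icc k₁ K, (j : ℝ) ^ (-B) * N2 (res a A x) j) := by
                  rw [av_sum]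
                  simp only [av_mul]
              _ ≤ C * D := by
                  apply av_le
                  intro x
                  rw [hD, ← mul_assoc]
                  exact ih ι _ m M hm (ha.res A x)
    have e : (∑ k ∈ range k₀, Ck k) = C * (1 - κ) := by rw [hC]; field_simp
    rw [mul_assoc, ← hD]
    rw [e] at P1
    linarith

theorem all_levels {θ : ℝ} (hθ : 3 / 2 + 1 / Real.log 2 < θ) :
    ∃ C : ℝ, 0 ≤ C ∧ ∀ (ι : Type) [Fintype ι] [DecidableEq ι] (a : Finset ι → ℝ)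
      (d : ℕ) (M : ℝ), 1 ≤ d → Adm a d M →
      Ph (rr d) univ (fun S => a S ^ 2) ≤ C * (d : ℝ) ^ (2 * θ) * M ^ 2 := by
  have hl : 0 < Real.log 2 := Real.log_pos (by norm_num)
  have hl2 : Real.log 2 < 1 := by linarith [Real.log_two_lt_d9]
  have hl3 : 1 < 1 / Real.log 2 := by rw [lt_div_iff₀ hl]; linarith
  set ε := θ - (3 / 2 + 1 / Real.log 2) with hε
  have hε0 : 0 < ε := by linarith
  obtain ⟨k, hk⟩ := exists_nat_one_div_lt hε0
  set k₁ := k + 2 with hk₁
  have hk' : 1 / (k₁ : ℝ) ≤ ε := by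
    refine le_trans ?_ hk.le
    rw [hk₁]; push_cast
    gcongr; norm_num
  set B := 2 / Real.log 2 + ε with hB
  obtain ⟨C, hC0, hC⟩ := graded (B := B) (by linarith) k₁ (by omega)
  have hB0 : 0 < B := by positivity
  choose Ck hCk0 hCk using bd_all
  have hS0 : 0 ≤ ∑ k ∈ range k₁, Ck k := Finset.sum_nonneg fun k _ => hCk0 k
  refine ⟨2 * (1 + ∑ k ∈ range k₁, Ck k + C), by positivity, ?_⟩
  intro ι _ _ a d M hd ha
  have hd' : (1 : ℝ) ≤ d := by exact_mod_cast hd
  have hr := rr_pos hd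
  set D := (d : ℝ) ^ (2 * θ) * M ^ 2 with hD
  have hD0 : 0 ≤ D := by positivity
  let v : ℕ → ℝ := fun k => Ph (rr d) (powersetCard k univ) (fun S => a S ^ 2)
  have hv0 : ∀ k, 0 ≤ v k := fun k => Ph_nonneg fun _ _ => sq_nonneg _
  have e1 : Ph (rr d) univ (fun S => a S ^ 2) = Ph (rr d) (range (d + 1)) v := by
    simp only [v]
    rw [Ph, Ph]
    congr 1
    simp only [Ph_rpow hr (fun _ _ => sq_nonneg _), powersetCard_eq_filter, powerset_univ,
      Finset.sum_filter]
    rw [Finset.sum_comm]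
    apply Finset.sum_congr rfl
    intro S _
    rw [Finset.sum_ite_eq]
    split_ifs with h
    · rfl
    · rw [ha.1 S (by simpa [Nat.lt_succ_iff] using h)]
      simp [Real.zero_rpow hr.ne']
  have e2 := Ph_le_card_mul_sum hr (rr_le_one d) (range (d + 1)) v (fun k _ => hv0 k)
  have e3 : ((range (d + 1)).card : ℝ) ^ (1 / rr d - 1) ≤ 2 := by
    rw [inv_rr hd, add_sub_cancel_left, card_range]
    apply le_of_rpow_le (by linarith) (by positivity) (by norm_num)
    rw [Real.rpow_natCast]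
    exact_mod_cast Nat.lt_two_pow_self
  have hvN : ∀ k, 1 ≤ k → k ≤ d → v k ≤ N2 a k := by
    intro k k1 k2
    apply Ph_anti (rr_pos k1) _ _ _ (fun _ _ => sq_nonneg _)
    have : (k : ℝ) ≤ d := by exact_mod_cast k2
    unfold rr
    rw [div_le_div_iff₀ (by positivity) (by positivity)]
    linarith
  have v0 : v 0 ≤ D := by
    have h1 : v 0 = a ∅ ^ 2 := by
      simp only [v, Ph, powersetCard_zero, sum_singleton]
      rw [← Real.rpow_mul (sq_nonneg _), mul_one_div_cancel hr.ne', Real.rpow_one]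
    have h2 : a ∅ ^ 2 ≤ M ^ 2 := le_trans (Finset.single_le_sum (f := fun S => a S ^ 2)
      (fun _ _ => sq_nonneg _) (mem_univ _)) ha.sum_sq
    rw [h1]
    refine h2.trans (le_mul_of_one_le_left (sq_nonneg _) (Real.one_le_rpow hd' (by linarith)))
  have e4 : ∑ k ∈ range (d + 1), v k ≤ (1 + ∑ k ∈ range k₁, Ck k + C) * D := by
    rw [← Finset.sum_filter_add_sum_filter_not (range (d + 1)) (fun k => k < k₁), add_mul]
    apply add_le_add
    · have : ∀ k ∈ (range (d + 1)).filter (fun k => k < k₁),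
          v k ≤ (if k = 0 then D else 0) + Ck k * D := by
        intro k hk
        split_ifs with h0
        · subst h0
          exact v0.trans (le_add_of_nonneg_right (mul_nonneg (hCk0 0) hD0))
        · have k1 : 1 ≤ k := by omega
          have k2 : (1 : ℝ) ≤ k := by exact_mod_cast k1
          have k3 : 1 / (k : ℝ) ≤ 1 := by rw [div_le_one (by linarith)]; exact k2
          rw [zero_add, hD, ← mul_assoc]
          refine (hvN k k1 (by have := mem_range.1 (mem_filter.1 hk).1; omega)).trans ?_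
          exact ((hCk k k1).mono (hCk0 k) (by linarith)) ι a d M hd ha
      refine (Finset.sum_le_sum this).trans ?_
      refine le_trans (Finset.sum_le_sum_of_subset_of_nonneg (t := range k₁)
        (fun k hk => mem_range.2 (mem_filter.1 hk).2) (fun k _ _ => ?_)) (le_of_eq ?_)
      · have := mul_nonneg (hCk0 k) hD0
        split_ifs <;> linarith
      · rw [Finset.sum_add_distrib, Finset.sum_ite_eq', if_pos (mem_range.2 (by omega)),
          ← Finset.sum_mul]
        ring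
    · have e5 : (range (d + 1)).filter (fun k => ¬ k < k₁) = Icc k₁ d := by
        ext k; simp only [mem_filter, mem_range, mem_Icc]; omega
      rw [e5]
      calc ∑ k ∈ Icc k₁ d, v k ≤ ∑ k ∈ Icc k₁ d, (d : ℝ) ^ B * ((k : ℝ) ^ (-B) * N2 a k) := by
            apply Finset.sum_le_sum
            intro k hk
            obtain ⟨k1, k2⟩ := mem_Icc.1 hk
            have k3 : (0 : ℝ) < k := by exact_mod_cast (show 0 < k by omega)
            have k4 : (k : ℝ) ≤ d := by exact_mod_cast k2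
            refine (hvN k (by omega) k2).trans ?_
            rw [← mul_assoc]
            apply le_mul_of_one_le_left (N2_nonneg a k)
            rw [Real.rpow_neg k3.le, ← div_eq_mul_inv, one_le_div (Real.rpow_pos_of_pos k3 _)]
            gcongr
        _ ≤ (d : ℝ) ^ B * (C * (d : ℝ) ^ (3 + 1 / (k₁ : ℝ)) * M ^ 2) := by
            rw [← Finset.mul_sum]
            exact mul_le_mul_of_nonneg_left (hC d ι a d M hd ha) (by positivity)
        _ = C * ((d : ℝ) ^ (B + (3 + 1 / (k₁ : ℝ))) * M ^ 2) := by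
            rw [Real.rpow_add (x := d) (by linarith) B]; ring
        _ ≤ C * D := by
            rw [hD]
            gcongr
            have : 2 / Real.log 2 = 2 * (1 / Real.log 2) := by ring
            linarith
  rw [e1]
  calc _ ≤ _ := e2
    _ ≤ 2 * ((1 + ∑ k ∈ range k₁, Ck k + C) * D) := by
        gcongr
        exact Finset.sum_nonneg fun k _ => hv0 k
    _ = _ := by rw [hD]; ring

theorem main (θ : ℝ) (hθ : 3 / 2 + 1 / Real.log 2 < θ) : ∃ K : ℝ, ∀ d : ℕ, 1 ≤ d → ∀ n : ℕ,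
    ∀ a : Finset (Fin n) → ℝ, (∀ S : Finset (Fin n), d < S.card → a S = 0) →
    ∀ M : ℝ,
      (∀ x : Fin n → ℝ, (∀ i, x i = 1 ∨ x i = -1) →
        |∑ S : Finset (Fin n), a S * ∏ i ∈ S, x i| ≤ M) →
      (∑ S : Finset (Fin n), |a S| ^ ((2 * (d : ℝ)) / ((d : ℝ) + 1))) ^
          (((d : ℝ) + 1) / (2 * (d : ℝ))) ≤ K * (d : ℝ) ^ θ * M := by
  obtain ⟨C, hC0, hC⟩ := all_levels hθ
  refine ⟨√C, fun d hd n a ha M hM => ?_⟩
  have hd' : (0 : ℝ) < d := by exact_mod_cast hd
  have hA : Adm a d M := ⟨ha, fun x => by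
    have := hM (sg x) (fun i => by unfold sg; split_ifs <;> simp)
    simpa only [evB, powerset_univ, chi] using this⟩
  have h := hC (Fin n) a d M hd hA
  have hM0 := hA.nonneg
  apply (pow_le_pow_iff_left₀ (by positivity) (by positivity) two_ne_zero).1
  rw [mul_pow, mul_pow, Real.sq_sqrt hC0, ← Real.rpow_natCast ((d : ℝ) ^ θ),
    ← Real.rpow_mul hd'.le, ← Real.rpow_natCast (_ ^ (((d : ℝ) + 1) / (2 * (d : ℝ)))),
    ← Real.rpow_mul (by positivity)]
  refine le_trans (le_of_eq ?_) (h.trans (le_of_eq ?_))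
  · rw [Ph]
    congr 1
    · apply Finset.sum_congr rfl
      intro S _
      rw [sq_rpow_eq, rr, mul_div_assoc]
    · rw [rr]; push_cast; field_simp
  · push_cast; ring_nf

end Pool.Agent.MP_9808b6_an
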